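import Pool.Agent.H27.L1.H34.GM.Targets

/-!
# Haar measure of `GL_m(R)` (row HAR of gmf_modules)
-/

namespace Pool.Agent.H27.L1.H44.GMF

open MeasureTheory Pool.Agent.H27.L1.H34.GM

variable {m : ℕ}

/-- right multiplication on `V m` -/
noncomputable def RM (a : Mat m) : V m →ₗ[ℝ] V m :=
  LinearMap.pi (fun i => (Matrix.vecMulLinear a).comp (LinearMap.proj i))

/-- transposition on `V m` -/
def TR (m : ℕ) : V m ≃ₗ[ℝ] V m where
  toFun z := fun i j => z j i
  map_add' _ _ := rfl
  map_smul' _ _ := rfl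
  invFun z := fun i j => z j i
  left_inv _ := rfl
  right_inv _ := rfl

/-- left multiplication on `V m` -/
noncomputable def LM (a : Mat m) : V m →ₗ[ℝ] V m :=
  (TR m).toLinearMap.comp ((RM a.transpose).comp (TR m).symm.toLinearMap)

theorem RM_apply (a : Mat m) (z : V m) : RM a z = fun i j => (Pool.Agent.H27.L1.H34.GM.mt z * a) i j := by
  funext i j
  simp [RM, Matrix.mul_apply, Matrix.vecMul, dotProduct, Pool.Agent.H27.L1.H34.GM.mt]

theorem LM_apply (a : Mat m) (z : V m) : LM a z = fun i j => (a * Pool.Agent.H27.L1.H34.GM.mt z) i j := by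
  funext i j
  simp only [LM, LinearMap.comp_apply, LinearEquiv.coe_coe, RM_apply]
  simp only [TR, LinearEquiv.coe_mk, LinearMap.coe_mk, AddHom.coe_mk, LinearEquiv.coe_symm_mk,
    Matrix.mul_apply, Matrix.transpose_apply, Pool.Agent.H27.L1.H34.GM.mt, Matrix.of_apply]
  exact Finset.sum_congr rfl fun k _ => mul_comm _ _

theorem det_RM (a : Mat m) : LinearMap.det (RM a) = a.det ^ m := by
  have h : LinearMap.det (Matrix.vecMulLinear a) = a.det := by
    have h1 : (Matrix.vecMulLinear a : (Fin m → ℝ) →ₗ[ℝ] (Fin m → ℝ)) =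
        Matrix.toLin' a.transpose := by
      ext v i
      simp
    rw [h1, LinearMap.det_toLin', Matrix.det_transpose]
  rw [RM, LinearMap.det_pi]
  simp [h]

theorem det_LM (a : Mat m) : LinearMap.det (LM a) = a.det ^ m := by
  rw [LM, LinearMap.det_conj, det_RM, Matrix.det_transpose]

theorem cont_det : Continuous fun z : V m => (Pool.Agent.H27.L1.H34.GM.mt z).det :=
  Continuous.matrix_det (A := fun z : V m => Pool.Agent.H27.L1.H34.GM.mt z) continuous_id

theorem meas_w : Measurable fun z : V m =>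
    ENNReal.ofReal ((|(Pool.Agent.H27.L1.H34.GM.mt z).det| ^ m)⁻¹) := by
  have h1 : Measurable fun z : V m => |(Pool.Agent.H27.L1.H34.GM.mt z).det| := by
    simpa [Real.norm_eq_abs] using (cont_det (m := m)).measurable.norm
  exact ((h1.pow_const m).inv).ennreal_ofReal

theorem lint_hm (f : V m → ENNReal) : ∫⁻ z, f z ∂(hm m) =
    ∫⁻ z : V m, ENNReal.ofReal ((|(Pool.Agent.H27.L1.H34.GM.mt z).det| ^ m)⁻¹) * f z := by
  rw [hm, lintegral_withDensity_eq_lintegral_mul_non_measurable _ meas_w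
    (Filter.Eventually.of_forall fun _ => ENNReal.ofReal_lt_top)]
  rfl

/-- change of variables for a linear map which multiplies the determinant -/
theorem lin_inv (L : V m →ₗ[ℝ] V m) (d : ℝ) (hd : d ≠ 0) (hL : LinearMap.det L = d ^ m)
    (hm1 : ∀ z : V m, (Pool.Agent.H27.L1.H34.GM.mt (L z)).det = d * (Pool.Agent.H27.L1.H34.GM.mt z).det)
    (f : V m → ENNReal) (hf : Measurable f) :
    ∫⁻ z, f (L z) ∂(hm m) = ∫⁻ z, f z ∂(hm m) := by
  have hLm : Measurable (fun z : V m => L z) :=
    (LinearMap.continuous_of_finiteDimensional L).measurable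
  have hdm : LinearMap.det L ≠ 0 := by rw [hL]; exact pow_ne_zero _ hd
  have key := Measure.map_linearMap_addHaar_eq_smul_addHaar (volume : Measure (V m)) hdm
  rw [lint_hm, lint_hm]
  have e1 : ∀ z : V m, ENNReal.ofReal ((|(Pool.Agent.H27.L1.H34.GM.mt z).det| ^ m)⁻¹) * f (L z) =
      ENNReal.ofReal (|d| ^ m) *
        (ENNReal.ofReal ((|(Pool.Agent.H27.L1.H34.GM.mt (L z)).det| ^ m)⁻¹) * f (L z)) := by
    intro z
    rw [hm1, abs_mul, mul_pow, mul_inv, ← mul_assoc, ← ENNReal.ofReal_mul (by positivity),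
      ← mul_assoc, mul_inv_cancel₀ (pow_ne_zero _ (abs_ne_zero.mpr hd)), one_mul]
  simp_rw [e1]
  have hg : Measurable fun z : V m =>
      ENNReal.ofReal ((|(Pool.Agent.H27.L1.H34.GM.mt z).det| ^ m)⁻¹) * f z := meas_w.mul hf
  rw [lintegral_const_mul (ENNReal.ofReal (|d| ^ m)) (f := fun z : V m =>
    ENNReal.ofReal ((|(Pool.Agent.H27.L1.H34.GM.mt (L z)).det| ^ m)⁻¹) * f (L z)) (hg.comp hLm)]
  have e2 := lintegral_map (μ := (volume : Measure (V m))) hg hLm
  rw [← e2, key, lintegral_smul_measure, smul_eq_mul, ← mul_assoc,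
    ← ENNReal.ofReal_mul (by positivity), hL]
  rw [abs_inv, abs_pow, mul_inv_cancel₀ (pow_ne_zero _ (abs_ne_zero.mpr hd)), ENNReal.ofReal_one,
    one_mul]

/-- inversion on `V m` -/
noncomputable def IV (z : V m) : V m := fun i j => ((Pool.Agent.H27.L1.H34.GM.mt z)⁻¹) i j

section deriv

attribute [local instance] Matrix.linftyOpNormedRing Matrix.linftyOpNormedAlgebra

/-- `V m` and the matrices -/
noncomputable def EQ (m : ℕ) : V m ≃L[ℝ] Mat m :=
  LinearEquiv.toContinuousLinearEquiv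
    { toFun := fun z => Matrix.of z
      map_add' := fun _ _ => rfl
      map_smul' := fun _ _ => rfl
      invFun := fun z => fun i j => z i j
      left_inv := fun _ => rfl
      right_inv := fun _ => rfl }

theorem deriv_IV (z : V m) (hz : (Pool.Agent.H27.L1.H34.GM.mt z).det ≠ 0) :
    HasFDerivAt (IV (m := m)) (LinearMap.toContinuousLinearMap
      (-((LM (Pool.Agent.H27.L1.H34.GM.mt z)⁻¹).comp (RM (Pool.Agent.H27.L1.H34.GM.mt z)⁻¹)))) z := by
  have : CompleteSpace (Mat m) := FiniteDimensional.complete ℝ (Mat m)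
  have hu : IsUnit (Pool.Agent.H27.L1.H34.GM.mt z) :=
    (Matrix.isUnit_iff_isUnit_det _).mpr (isUnit_iff_ne_zero.mpr hz)
  have h1 := hasFDerivAt_ringInverse (𝕜 := ℝ) hu.unit
  have h2 : HasFDerivAt (fun y : V m => (EQ m).symm (Ring.inverse (EQ m y)))
      (((EQ m).symm : Mat m →L[ℝ] V m).comp
        ((-ContinuousLinearMap.mulLeftRight ℝ (Mat m) (↑hu.unit⁻¹) (↑hu.unit⁻¹)).comp
          ((EQ m) : V m →L[ℝ] Mat m))) z := by
    apply ((EQ m).symm : Mat m →L[ℝ] V m).hasFDerivAt.comp
    apply HasFDerivAt.comp (g := Ring.inverse) z _ ((EQ m) : V m →L[ℝ] Mat m).hasFDerivAt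
    exact h1
  have h3 : (fun y : V m => (EQ m).symm (Ring.inverse (EQ m y))) = IV (m := m) := by
    funext y i j
    rw [← Matrix.nonsing_inv_eq_ringInverse]
    rfl
  rw [h3] at h2
  refine h2.congr_fderiv ?_
  ext h i j
  have hinv : ((↑hu.unit⁻¹ : Mat m)) = (Pool.Agent.H27.L1.H34.GM.mt z)⁻¹ := by
    rw [Matrix.coe_units_inv]
    rfl
  simp only [hinv, LinearMap.coe_toContinuousLinearMap', LinearMap.neg_apply,
    LinearMap.comp_apply, LM_apply, RM_apply]
  show (-((Pool.Agent.H27.L1.H34.GM.mt z)⁻¹ * Pool.Agent.H27.L1.H34.GM.mt h * (Pool.Agent.H27.L1.H34.GM.mt z)⁻¹)) i j =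
    -(((Pool.Agent.H27.L1.H34.GM.mt z)⁻¹ * (Pool.Agent.H27.L1.H34.GM.mt h * (Pool.Agent.H27.L1.H34.GM.mt z)⁻¹)) i j)
  rw [Matrix.mul_assoc]
  rfl

end deriv

theorem det_IV (a : Mat m) : |(LinearMap.toContinuousLinearMap
      (-((LM a).comp (RM a)))).det| = |a.det| ^ m * |a.det| ^ m := by
  rw [LinearMap.det_toContinuousLinearMap]
  have : (-((LM a).comp (RM a))) = (-1 : ℝ) • ((LM a).comp (RM a)) := (neg_one_smul ℝ _).symm
  rw [this, LinearMap.det_smul, LinearMap.det_comp, det_LM, det_RM, abs_mul, abs_pow, abs_neg,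
    abs_one, one_pow, one_mul, abs_mul, abs_pow]

theorem pf_HAR : T_HAR := by
  intro m hm1
  refine ⟨?_, ?_, ?_, ?_⟩
  · intro a ha f hf
    constructor
    · have := lin_inv (LM a) a.det ha (det_LM a) (fun z => by
        rw [LM_apply]
        show (a * Pool.Agent.H27.L1.H34.GM.mt z).det = _
        rw [Matrix.det_mul]) f hf
      simpa only [LM_apply] using this
    · have := lin_inv (RM a) a.det ha (det_RM a) (fun z => by
        rw [RM_apply]
        show (Pool.Agent.H27.L1.H34.GM.mt z * a).det = _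
        rw [Matrix.det_mul, mul_comm]) f hf
      simpa only [RM_apply] using this
  · intro f hf
    show ∫⁻ z, f (IV z) ∂(hm m) = _
    rw [lint_hm, lint_hm]
    set S : Set (V m) := {z | (Pool.Agent.H27.L1.H34.GM.mt z).det ≠ 0} with hS
    have hSm : MeasurableSet S :=
      (cont_det (m := m)).measurable (measurableSet_singleton (0 : ℝ)).compl
    have h0 : ∀ z : V m, z ∉ S → ENNReal.ofReal ((|(Pool.Agent.H27.L1.H34.GM.mt z).det| ^ m)⁻¹) = 0 := by
      intro z hz
      have : (Pool.Agent.H27.L1.H34.GM.mt z).det = 0 := by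
        by_contra h
        exact hz h
      rw [this, abs_zero, zero_pow (by omega), inv_zero, ENNReal.ofReal_zero]
    have hrest : ∀ g : V m → ENNReal,
        ∫⁻ z : V m, ENNReal.ofReal ((|(Pool.Agent.H27.L1.H34.GM.mt z).det| ^ m)⁻¹) * g z =
        ∫⁻ z in S, ENNReal.ofReal ((|(Pool.Agent.H27.L1.H34.GM.mt z).det| ^ m)⁻¹) * g z := by
      intro g
      rw [← lintegral_indicator hSm]
      apply lintegral_congr
      intro z
      by_cases hz : z ∈ S
      · rw [Set.indicator_of_mem hz]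
      · rw [Set.indicator_of_notMem hz, h0 z hz, zero_mul]
    rw [hrest, hrest]
    have hinvol : ∀ z ∈ S, IV (IV z) = z := by
      intro z hz
      funext i j
      show (((Pool.Agent.H27.L1.H34.GM.mt z)⁻¹)⁻¹) i j = z i j
      rw [Matrix.nonsing_inv_nonsing_inv _ (isUnit_iff_ne_zero.mpr hz)]
      rfl
    have hdetIV : ∀ z : V m, (Pool.Agent.H27.L1.H34.GM.mt (IV z)).det =
        ((Pool.Agent.H27.L1.H34.GM.mt z).det)⁻¹ := by
      intro z
      show ((Pool.Agent.H27.L1.H34.GM.mt z)⁻¹).det = _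
      rw [Matrix.det_nonsing_inv, Ring.inverse_eq_inv']
    have hmaps : ∀ z ∈ S, IV z ∈ S := by
      intro z hz
      show (Pool.Agent.H27.L1.H34.GM.mt (IV z)).det ≠ 0
      rw [hdetIV]
      exact inv_ne_zero hz
    have himg : IV '' S = S := by
      ext z
      constructor
      · rintro ⟨y, hy, rfl⟩
        exact hmaps y hy
      · intro hz
        exact ⟨IV z, hmaps z hz, hinvol z hz⟩
    have hinj : Set.InjOn (IV (m := m)) S := by
      intro x hx y hy hxy
      rw [← hinvol x hx, ← hinvol y hy, hxy]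
    have key := lintegral_image_eq_lintegral_abs_det_fderiv_mul (volume : Measure (V m)) hSm
      (fun z hz => (deriv_IV z hz).hasFDerivWithinAt) hinj
      (fun z => ENNReal.ofReal ((|(Pool.Agent.H27.L1.H34.GM.mt z).det| ^ m)⁻¹) * f z)
    rw [himg] at key
    rw [key]
    apply setLIntegral_congr_fun hSm
    intro z hz
    have hz0 : (Pool.Agent.H27.L1.H34.GM.mt z).det ≠ 0 := hz
    have hp : |(Pool.Agent.H27.L1.H34.GM.mt z).det| ^ m ≠ 0 := pow_ne_zero _ (abs_ne_zero.mpr hz0)
    show ENNReal.ofReal ((|(Pool.Agent.H27.L1.H34.GM.mt z).det| ^ m)⁻¹) * f (IV z) =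
      ENNReal.ofReal |(LinearMap.toContinuousLinearMap
        (-((LM (Pool.Agent.H27.L1.H34.GM.mt z)⁻¹).comp (RM (Pool.Agent.H27.L1.H34.GM.mt z)⁻¹)))).det| *
          (ENNReal.ofReal ((|(Pool.Agent.H27.L1.H34.GM.mt (IV z)).det| ^ m)⁻¹) * f (IV z))
    rw [← mul_assoc, det_IV, ← ENNReal.ofReal_mul (by positivity), hdetIV]
    congr 2
    rw [Matrix.det_nonsing_inv, Ring.inverse_eq_inv', abs_inv, inv_pow, inv_inv]
    field_simp
  · show (hm m) {z | (Pool.Agent.H27.L1.H34.GM.mt z).det = 0} = 0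
    have hms : MeasurableSet {z : V m | (Pool.Agent.H27.L1.H34.GM.mt z).det = 0} :=
      (cont_det (m := m)).measurable (measurableSet_singleton (0 : ℝ))
    rw [hm, withDensity_apply _ hms]
    rw [← lintegral_indicator hms]
    have : ∀ z : V m, Set.indicator {z : V m | (Pool.Agent.H27.L1.H34.GM.mt z).det = 0}
        (fun z => ENNReal.ofReal ((|(Pool.Agent.H27.L1.H34.GM.mt z).det| ^ m)⁻¹)) z = 0 := by
      intro z
      by_cases hz : z ∈ {z : V m | (Pool.Agent.H27.L1.H34.GM.mt z).det = 0}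
      · rw [Set.indicator_of_mem hz]
        have h : (Pool.Agent.H27.L1.H34.GM.mt z).det = 0 := hz
        rw [h, abs_zero, zero_pow (by omega), inv_zero, ENNReal.ofReal_zero]
      · rw [Set.indicator_of_notMem hz]
    simp only [this, lintegral_zero]
  · intro c hc
    have hms : MeasurableSet {z : V m | sz (Pool.Agent.H27.L1.H34.GM.mt z) ≤ c ∧
        c⁻¹ ≤ |(Pool.Agent.H27.L1.H34.GM.mt z).det|} := by
      apply MeasurableSet.inter
      · have : (fun z : V m => sz (Pool.Agent.H27.L1.H34.GM.mt z)) = fun z : V m => ‖z‖ := rfl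
        have h2 : Measurable (fun z : V m => sz (Pool.Agent.H27.L1.H34.GM.mt z)) := by
          rw [this]
          exact measurable_norm
        exact measurableSet_le h2 measurable_const
      · exact measurableSet_le measurable_const (cont_det (m := m)).abs.measurable
    rw [hm, withDensity_apply _ hms]
    calc ∫⁻ z in {z : V m | sz (Pool.Agent.H27.L1.H34.GM.mt z) ≤ c ∧
          c⁻¹ ≤ |(Pool.Agent.H27.L1.H34.GM.mt z).det|},
          ENNReal.ofReal ((|(Pool.Agent.H27.L1.H34.GM.mt z).det| ^ m)⁻¹)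
        ≤ ∫⁻ _z in {z : V m | sz (Pool.Agent.H27.L1.H34.GM.mt z) ≤ c ∧
          c⁻¹ ≤ |(Pool.Agent.H27.L1.H34.GM.mt z).det|}, ENNReal.ofReal (c ^ m) := by
          apply setLIntegral_mono' hms
          intro z hz
          apply ENNReal.ofReal_le_ofReal
          have h2 : c⁻¹ ≤ |(Pool.Agent.H27.L1.H34.GM.mt z).det| := hz.2
          have hpos : 0 < c⁻¹ := inv_pos.mpr hc
          rw [← inv_pow]
          apply pow_le_pow_left₀ (by positivity)
          calc |(Pool.Agent.H27.L1.H34.GM.mt z).det|⁻¹ ≤ (c⁻¹)⁻¹ := inv_anti₀ hpos h2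
            _ = c := inv_inv c
      _ < ⊤ := by
          rw [setLIntegral_const]
          apply ENNReal.mul_lt_top ENNReal.ofReal_lt_top
          refine lt_of_le_of_lt (measure_mono (t := Metric.closedBall (0 : V m) c) ?_)
            measure_closedBall_lt_top
          intro z hz
          rw [mem_closedBall_zero_iff]
          exact hz.1

end Pool.Agent.H27.L1.H44.GMF
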